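import Pool.Agent.H12.OP.T2b

set_option autoImplicit false
set_option linter.unusedSectionVars false

/-!
# Full Ottaviani-Paoletti, part (T2): `e1_G`, `e1_G0`, `e0_G`, `rho_e0`
-/

open MvPolynomial

namespace Pool.Agent.H34.OP2

open Pool.Agent.H27.OP Pool.Agent.H80.OP Pool.Agent.H20.OPF Pool.Agent.H12.OP

variable {σ k F : Type} [Fintype σ] [Field k] [AddCommGroup F] [Module k F] {e : ℕ}

section ring

variable {O : Type*} [Ring O] [Algebra k O] {d : ℕ} (S : Fk σ k O d) (o : σ)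

lemma N0_J0 {ν : σ →₀ ℕ} (hν : ν ∈ Mo σ d) (h : ν o = 0) :
    N0 S o * S.J ν = S.J ν * N0 S o - S.J ν := by
  classical
  unfold N0
  rw [Finset.sum_mul, Finset.mul_sum]
  have h1 : ∀ μ ∈ (Mo σ d).filter (fun μ => μ o = 0), S.E μ * S.J μ * S.J ν
      = S.J ν * (S.E μ * S.J μ) - (if μ = ν then S.J ν else 0) := by
    intro μ hμ
    obtain ⟨h2, _⟩ := Finset.mem_filter.mp hμ
    by_cases h3 : μ = ν
    · subst h3
      have h5 : S.J μ * S.J μ = -(S.J μ * S.J μ) := S.JJ μ μ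
      rw [if_pos rfl, ← mul_assoc (S.J μ), S.JEs μ h2, sub_mul, one_mul, mul_assoc]
      have h6 : S.E μ * (S.J μ * S.J μ) = -(S.E μ * (S.J μ * S.J μ)) := by
        conv_lhs => rw [h5, mul_neg]
      conv_lhs => rw [h6]
      abel
    · rw [if_neg h3, sub_zero, mul_assoc, S.JJ, mul_neg, ← mul_assoc (S.J ν),
        S.JE ν hν μ h2 (Ne.symm h3), neg_mul, mul_assoc]
  rw [Finset.sum_congr rfl h1, Finset.sum_sub_distrib, Finset.sum_ite_eq' _ ν,
    if_pos (Finset.mem_filter.mpr ⟨hν, h⟩)]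

/-- `N0` commutes with letters divisible by `X o` -/
lemma N0_Ee (q : MvPolynomial σ k) : N0 S o * S.Ee (X o * q) = S.Ee (X o * q) * N0 S o := by
  classical
  rw [Fk.Ee_apply, Finset.mul_sum, Finset.sum_mul]
  refine Finset.sum_congr rfl fun μ hμ => ?_
  by_cases h : μ o = 0
  · have h1 : coeff μ (X o * q) = 0 := by
      rw [coeff_X_mul', if_neg]
      rw [Finsupp.mem_support_iff, not_not]
      exact h
    rw [h1, zero_smul, mul_zero, zero_mul]
  · rw [mul_smul_comm, smul_mul_assoc, N0_E1 S o hμ h]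

lemma N0_EeJ0 {μ : σ →₀ ℕ} (h1 : μ ∈ Mo σ d) (h2 : μ o = 0) (q : MvPolynomial σ k) :
    N0 S o * (S.Ee (X o * q) * S.J μ)
      = S.Ee (X o * q) * S.J μ * N0 S o - S.Ee (X o * q) * S.J μ := by
  rw [← mul_assoc, N0_Ee S o, mul_assoc, N0_J0 S o h1 h2, mul_sub, mul_assoc]

lemma N0_EeJ {μ : σ →₀ ℕ} (h1 : μ ∈ Mo σ d) (h2 : ¬ μ o = 0) (q : MvPolynomial σ k) :
    N0 S o * (S.Ee (X o * q) * S.J μ) = S.Ee (X o * q) * S.J μ * N0 S o := by
  rw [← mul_assoc, N0_Ee S o, mul_assoc, N0_J1 S o h1 h2, mul_assoc]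

lemma N0_T (y : σ) : N0 S o * S.T y = S.T y * N0 S o := by
  unfold N0
  rw [Finset.mul_sum, Finset.sum_mul]
  refine Finset.sum_congr rfl fun μ _ => ?_
  rw [mul_assoc, ← S.TJ, ← mul_assoc, ← S.TE, mul_assoc]

lemma N0_mT (a : MvPolynomial σ k) (y : σ) :
    N0 S o * (S.m a * S.T y) = S.m a * S.T y * N0 S o := by
  rw [← mul_assoc, N0_m S o, mul_assoc, N0_T S o, mul_assoc]

end ring

variable {S : Fk σ k (Module.End k F) (e + 1)} {A : Gr S} {o : σ} {K : BiK k F e}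

include A in
lemma Ee_mem {p m : ℕ} {ω : F} (h : ω ∈ A.G p m) (q : MvPolynomial σ k) :
    S.Ee q ω ∈ A.G (p + 1) m := by
  rw [Fk.Ee_apply, LinearMap.sum_apply]
  refine Submodule.sum_mem _ fun μ _ => ?_
  rw [LinearMap.smul_apply]
  exact Submodule.smul_mem _ _ (A.GE h)

lemma N0_e1 (x : σ) : N0 S o * e1 S o x = e1 S o x * N0 S o - e1 S o x := by
  unfold e1
  rw [Finset.mul_sum, Finset.sum_mul, ← Finset.sum_sub_distrib]
  refine Finset.sum_congr rfl fun μ hμ => ?_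
  obtain ⟨h1, h2⟩ := Finset.mem_filter.mp hμ
  exact N0_EeJ0 S o h1 h2 _

theorem e1_G (C : Cmp S A o K) {x : σ} {a b m : ℕ} {ω : F}
    (h : ω ∈ K.G (a + 1) b m) : e1 S o x ω ∈ K.G a (b + 1) m := by
  obtain ⟨h1, h2⟩ := C.G_iff.mp h
  refine C.G_iff.mpr ⟨?_, ?_⟩
  · unfold e1
    rw [LinearMap.sum_apply]
    refine Submodule.sum_mem _ fun μ _ => ?_
    rw [Module.End.mul_apply]
    have e1 : a + 1 + b = a + b + 1 := by omega
    have e2 : a + (b + 1) = a + b + 1 := by omega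
    rw [e1] at h1
    rw [e2]
    exact Ee_mem (A.GJ h1) _
  · have h3 := LinearMap.congr_fun (N0_e1 (S := S) (o := o) x) ω
    rw [Module.End.mul_apply, LinearMap.sub_apply, Module.End.mul_apply, h2, map_smul] at h3
    rw [h3, Nat.cast_succ, add_smul, one_smul, add_sub_cancel_right]

theorem e1_G0 (C : Cmp S A o K) {x : σ} {b m : ℕ} {ω : F}
    (h : ω ∈ K.G 0 b m) : e1 S o x ω = 0 := by
  unfold e1
  rw [LinearMap.sum_apply]
  refine Finset.sum_eq_zero fun μ hμ => ?_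
  obtain ⟨h1, h2⟩ := Finset.mem_filter.mp hμ
  rw [Module.End.mul_apply, C.J_S h μ h1 h2, map_zero]

/-- `e0` without `X o ∂_x` on the coefficients -/
lemma e0_eq (x : σ) : e0 S o x = S.m (X o) * S.T x
    + ∑ μ ∈ (Mo σ (e + 1)).filter (fun μ => ¬ μ o = 0),
        S.Ee (X o * pderiv x (monomial μ 1)) * S.J μ := by
  unfold e0 e1 Fk.D
  rw [← Finset.sum_filter_add_sum_filter_not (Mo σ (e + 1)) (fun μ => μ o = 0)
    (fun μ => S.Ee (X o * pderiv x (monomial μ 1)) * S.J μ)]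
  abel

lemma N0_e0 (x : σ) : N0 S o * e0 S o x = e0 S o x * N0 S o := by
  rw [e0_eq, mul_add, add_mul, Finset.mul_sum, Finset.sum_mul]
  refine congrArg₂ (· + ·) (N0_mT S o _ _) (Finset.sum_congr rfl fun μ hμ => ?_)
  obtain ⟨h1, h2⟩ := Finset.mem_filter.mp hμ
  exact N0_EeJ S o h1 h2 _

theorem e0_G (C : Cmp S A o K) {x : σ} {a b m : ℕ} {ω : F}
    (h : ω ∈ K.G a b m) : e0 S o x ω ∈ K.G a b m := by
  obtain ⟨h1, h2⟩ := C.G_iff.mp h
  refine C.G_iff.mpr ⟨?_, ?_⟩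
  · rw [e0_eq, LinearMap.add_apply, LinearMap.sum_apply]
    refine add_mem ?_ (Submodule.sum_mem _ fun μ _ => ?_)
    · rw [Module.End.mul_apply]
      rcases m with _ | m
      · rw [A.GT0 h1, map_zero]
        exact zero_mem _
      · have h3 : S.T x ω ∈ A.G (a + b) m := A.GT h1
        exact A.Gm (j := 1) (isHomogeneous_X k o) h3
    · rw [Module.End.mul_apply]
      rcases hab : a + b with _ | p
      · rw [hab] at h1
        rw [A.GJ0 h1, map_zero]
        exact zero_mem _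
      · rw [hab] at h1
        have h3 : S.J μ ω ∈ A.G p m := A.GJ h1
        exact Ee_mem h3 _
  · have h3 := LinearMap.congr_fun (N0_e0 (S := S) (o := o) x) ω
    rw [Module.End.mul_apply, Module.End.mul_apply, h2, map_smul] at h3
    exact h3

lemma rho_J (C : Cmp S A o K) (μ : σ →₀ ℕ) (ω : F) : K.rho (S.J μ ω) = S.J μ (K.rho ω) := by
  rw [C.rho_eq, C.rho_eq, A.rho_J]

lemma rho_Ee (C : Cmp S A o K) (q : MvPolynomial σ k) (ω : F) :
    K.rho (S.Ee q ω) = S.Ee q (K.rho ω) := by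
  rw [Fk.Ee_apply, LinearMap.sum_apply, LinearMap.sum_apply, map_sum]
  refine Finset.sum_congr rfl fun μ _ => ?_
  rw [LinearMap.smul_apply, LinearMap.smul_apply, map_smul, C.rho_E]

lemma rho_mX (C : Cmp S A o K) (ω : F) : K.rho (S.m (X o) ω) = 0 := by
  rw [← C.c_eq, K.rho_c]

/-- `rho e0` on arbitrary elements -/
lemma rho_e0_eq (C : Cmp S A o K) (x : σ) (ω : F) : K.rho (e0 S o x ω)
    = ∑ μ ∈ (Mo σ (e + 1)).filter (fun μ => ¬ μ o = 0),
        S.Ee (X o * pderiv x (monomial μ 1)) (S.J μ (K.rho ω)) := by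
  rw [e0_eq, LinearMap.add_apply, LinearMap.sum_apply, map_add, Module.End.mul_apply, rho_mX C,
    zero_add, map_sum]
  refine Finset.sum_congr rfl fun μ _ => ?_
  rw [Module.End.mul_apply, rho_Ee C, rho_J C]

theorem rho_e0 (C : Cmp S A o K) {x : σ} (ω : F) :
    K.rho (e0 S o x ω) = K.rho (e0 S o x (K.rho ω)) := by
  rw [rho_e0_eq C, rho_e0_eq C, K.rho_rho]

end Pool.Agent.H34.OP2
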