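import Pool.Agent.H34.OP2.T2x

set_option autoImplicit false
set_option linter.unusedSectionVars false

/-!
# Full Ottaviani-Paoletti, part (T2): `Dxy_G`, `Doo_G`, `rho_Dxy`, `rho_Doo`, `Dxy_GZ`, `Doo_GZ`
-/

open MvPolynomial

namespace Pool.Agent.H34.OP2

open Pool.Agent.H27.OP Pool.Agent.H80.OP Pool.Agent.H20.OPF Pool.Agent.H12.OP

variable {σ k F : Type} [Fintype σ] [Field k] [AddCommGroup F] [Module k F] {e : ℕ}

/-- the exponents in `X x ∂_y x^μ` -/
lemma coeff_move {o x y : σ} (h : x = o ↔ y = o) {μ ν : σ →₀ ℕ}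
    (hc : coeff ν (X x * pderiv y (monomial μ (1 : k))) ≠ 0) : ν o = μ o := by
  classical
  rw [coeff_X_mul'] at hc
  split_ifs at hc with h1
  · rw [coeff_pderiv, coeff_monomial] at hc
    split_ifs at hc with h2
    · have h3 := DFunLike.congr_fun h2 o
      rw [Finsupp.add_apply, Finsupp.tsub_apply] at h3
      rw [Finsupp.mem_support_iff] at h1
      by_cases hx : x = o
      · have hy := h.mp hx
        subst hx
        subst hy
        rw [Finsupp.single_eq_same] at h3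
        omega
      · have hy : ¬ y = o := fun h' => hx (h.mpr h')
        rw [Finsupp.single_eq_of_ne (Ne.symm hx), Finsupp.single_eq_of_ne (Ne.symm hy)] at h3
        omega
    · exact absurd (zero_mul _) hc
  · exact absurd rfl hc

section ring

variable {O : Type*} [Ring O] [Algebra k O] {d : ℕ} (S : Fk σ k O d) (o : σ)

lemma N0_Ee0 (q : MvPolynomial σ k) (hq : ∀ ν, coeff ν q ≠ 0 → ν o = 0) :
    N0 S o * S.Ee q = S.Ee q * N0 S o + S.Ee q := by
  rw [Fk.Ee_apply, Finset.mul_sum, Finset.sum_mul, ← Finset.sum_add_distrib]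
  refine Finset.sum_congr rfl fun μ hμ => ?_
  by_cases h : coeff μ q = 0
  · rw [h, zero_smul, mul_zero, zero_mul, add_zero]
  · rw [mul_smul_comm, smul_mul_assoc, N0_E0 S o hμ (hq μ h), smul_add]

lemma N0_Ee1 (q : MvPolynomial σ k) (hq : ∀ ν, coeff ν q ≠ 0 → ν o ≠ 0) :
    N0 S o * S.Ee q = S.Ee q * N0 S o := by
  rw [Fk.Ee_apply, Finset.mul_sum, Finset.sum_mul]
  refine Finset.sum_congr rfl fun μ hμ => ?_
  by_cases h : coeff μ q = 0
  · rw [h, zero_smul, mul_zero, zero_mul]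
  · rw [mul_smul_comm, smul_mul_assoc, N0_E1 S o hμ (hq μ h)]

lemma N0_D {x y : σ} (h : x = o ↔ y = o) :
    N0 S o * S.D (X x) y = S.D (X x) y * N0 S o := by
  unfold Fk.D
  rw [mul_add, add_mul, Finset.mul_sum, Finset.sum_mul]
  refine congrArg₂ (· + ·) (N0_mT S o _ _) (Finset.sum_congr rfl fun μ hμ => ?_)
  by_cases h0 : μ o = 0
  · rw [← mul_assoc, N0_Ee0 S o _ (fun ν hν => (coeff_move h hν).trans h0), add_mul, mul_assoc,
      N0_J0 S o hμ h0, mul_sub, mul_assoc]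
    abel
  · rw [← mul_assoc, N0_Ee1 S o _ (fun ν hν => by rw [coeff_move h hν]; exact h0), mul_assoc,
      N0_J1 S o hμ h0, mul_assoc]

end ring

variable {S : Fk σ k (Module.End k F) (e + 1)} {A : Gr S} {o : σ} {K : BiK k F e}

theorem D_G (C : Cmp S A o K) {x y : σ} (hxy : x = o ↔ y = o) {a b m : ℕ} {ω : F}
    (h : ω ∈ K.G a b m) : S.D (X x) y ω ∈ K.G a b m := by
  obtain ⟨h1, h2⟩ := C.G_iff.mp h
  refine C.G_iff.mpr ⟨D_mem A h1 (isHomogeneous_X k x) y, ?_⟩
  have h3 := LinearMap.congr_fun (N0_D S o hxy) ω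
  rw [Module.End.mul_apply, Module.End.mul_apply, h2, map_smul] at h3
  exact h3

theorem Dxy_G (C : Cmp S A o K) {x y : σ} (hx : x ≠ o) (hy : y ≠ o) {a b m : ℕ} {ω : F}
    (h : ω ∈ K.G a b m) : S.D (X x) y ω ∈ K.G a b m :=
  D_G C ⟨fun h' => absurd h' hx, fun h' => absurd h' hy⟩ h

theorem Doo_G (C : Cmp S A o K) {a b m : ℕ} {ω : F}
    (h : ω ∈ K.G a b m) : S.D (X o) o ω ∈ K.G a b m := D_G C Iff.rfl h

lemma rho_mX' (C : Cmp S A o K) {x : σ} (hx : x ≠ o) (ω : F) :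
    K.rho (S.m (X x) ω) = S.m (X x) (K.rho ω) := by
  rw [C.rho_eq, C.rho_eq]
  exact A.rho_mon o (Finsupp.single x 1) ω (Finsupp.single_eq_of_ne (Ne.symm hx))

lemma rho_sum (C : Cmp S A o K) (x y : σ) (ω : F) :
    K.rho ((∑ μ ∈ Mo σ (e + 1), S.Ee (X x * pderiv y (monomial μ 1)) * S.J μ : Module.End k F) ω)
      = (∑ μ ∈ Mo σ (e + 1), S.Ee (X x * pderiv y (monomial μ 1)) * S.J μ : Module.End k F)
        (K.rho ω) := by
  rw [LinearMap.sum_apply, LinearMap.sum_apply, map_sum]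
  refine Finset.sum_congr rfl fun μ _ => ?_
  rw [Module.End.mul_apply, Module.End.mul_apply, rho_Ee C, rho_J C]

theorem rho_Dxy (C : Cmp S A o K) {x y : σ} (hx : x ≠ o) (hy : y ≠ o) (ω : F) :
    K.rho (S.D (X x) y ω) = S.D (X x) y (K.rho ω) := by
  unfold Fk.D
  rw [LinearMap.add_apply, LinearMap.add_apply, map_add, rho_sum C, Module.End.mul_apply,
    Module.End.mul_apply, rho_mX' C hx, C.rho_T y hy]

theorem rho_Doo (C : Cmp S A o K) (ω : F) :
    K.rho (S.D (X o) o ω) = K.rho (S.D (X o) o (K.rho ω)) := by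
  unfold Fk.D
  rw [LinearMap.add_apply, LinearMap.add_apply, map_add, map_add, rho_sum C, rho_sum C,
    K.rho_rho, Module.End.mul_apply, Module.End.mul_apply, rho_mX C, rho_mX C]

end Pool.Agent.H34.OP2
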