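import Pool.Agent.H34.OP2.T2y

set_option autoImplicit false
set_option linter.unusedSectionVars false

/-!
# Full Ottaviani-Paoletti, part (T2): `D_eq`, `D_comm`, `Dxy_GZ`, `Doo_GZ`
-/

open MvPolynomial

namespace Pool.Agent.H34.OP2

open Pool.Agent.H27.OP Pool.Agent.H80.OP Pool.Agent.H20.OPF Pool.Agent.H12.OP

variable {σ k F : Type} [Fintype σ] [Field k] [AddCommGroup F] [Module k F] {e : ℕ}
variable {S : Fk σ k (Module.End k F) (e + 1)} {A : Gr S} {o : σ} {K : BiK k F e}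

theorem D_eq (C : Cmp S A o K) (ω : F) : K.D ω = S.del ω := by
  rw [K.D_apply, C.dS_eq, C.c_eq, C.dA_eq, del_eq_dS_dA S o, LinearMap.add_apply,
    Module.End.mul_apply]

theorem D_comm (C : Cmp S A o K) (x y : σ) (ω : F) :
    K.D (S.D (X x) y ω) = S.D (X x) y (K.D ω) := by
  rw [D_eq C, D_eq C]
  have h := LinearMap.congr_fun (S.D_del (isHomogeneous_X k x) y) ω
  rw [Module.End.mul_apply, Module.End.mul_apply] at h
  exact h.symm

lemma D_c (C : Cmp S A o K) {x y : σ} (hy : y ≠ o) (ω : F) :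
    S.D (X x) y (K.c ω) = K.c (S.D (X x) y ω) := by
  rw [C.c_eq, C.c_eq]
  have h := LinearMap.congr_fun (S.D_m (c := X x) y (X o)) ω
  rw [pderiv_X_of_ne (Ne.symm hy), mul_zero, map_zero, add_zero, Module.End.mul_apply,
    Module.End.mul_apply] at h
  exact h

/-- `D x y`, `x, y ≠ o`, commutes with `dS` and `dA` -/
theorem D_dS_dA (C : Cmp S A o K) {x y : σ} (hx : x ≠ o) (hy : y ≠ o) {a b m : ℕ} {ω : F}
    (h : ω ∈ K.G a b m) : K.dS (S.D (X x) y ω) = S.D (X x) y (K.dS ω) ∧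
      K.dA (S.D (X x) y ω) = S.D (X x) y (K.dA ω) := by
  have hD := Dxy_G C hx hy h
  have h1 := D_comm C x y ω
  rw [K.D_apply, K.D_apply, map_add, D_c C hy] at h1
  have h2 : (K.dS (S.D (X x) y ω) - S.D (X x) y (K.dS ω))
      + K.c (K.dA (S.D (X x) y ω) - S.D (X x) y (K.dA ω)) = 0 := by
    rw [map_sub]
    have h3 := sub_eq_zero.mpr h1
    rw [← h3]
    abel
  have key : K.dS (S.D (X x) y ω) - S.D (X x) y (K.dS ω) = 0 := by
    rcases a with _ | a
    · rw [K.dS_zero hD, K.dS_zero h, map_zero, sub_zero]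
    · rcases b with _ | b
      · rw [K.dA_zero hD, K.dA_zero h, map_zero, sub_zero, map_zero, add_zero] at h2
        exact h2
      · have h4 : K.dS (S.D (X x) y ω) - S.D (X x) y (K.dS ω) ∈ K.G a (b + 1) (m + (e + 1)) :=
          sub_mem (K.dS_mem hD) (Dxy_G C hx hy (K.dS_mem h))
        have h5 : K.c (K.dA (S.D (X x) y ω) - S.D (X x) y (K.dA ω))
            ∈ K.G (a + 1) b (m + e + 1) :=
          K.c_mem (sub_mem (K.dA_mem hD) (Dxy_G C hx hy (K.dA_mem h)))
        have h6 := congrArg (K.pr a) h2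
        rwa [map_add, K.pr_same h4, K.pr_other (Nat.succ_ne_self a) h5, add_zero, map_zero] at h6
  refine ⟨sub_eq_zero.mp key, ?_⟩
  rw [key, zero_add] at h2
  exact sub_eq_zero.mp (K.c_inj _ h2)

theorem Dxy_GZ (C : Cmp S A o K) {x y : σ} (hx : x ≠ o) (hy : y ≠ o) {s i m : ℕ}
    {z : F} (h : z ∈ GZ S o K s i m) : S.D (X x) y z ∈ GZ S o K s i m := by
  obtain ⟨h1, h2⟩ := mem_GZ.mp h
  obtain ⟨g1, g2, g3, g4⟩ := mem_Cl.mp h1
  obtain ⟨k1, k2⟩ := D_dS_dA C hx hy g1
  refine mem_GZ.mpr ⟨mem_Cl.mpr ⟨Dxy_G C hx hy g1, ?_, ?_, ?_⟩, ?_⟩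
  · rw [rho_Dxy C hx hy, g2]
  · rw [k1, g3, map_zero]
  · rw [k2, rho_Dxy C hx hy, g4, map_zero]
  · intro μ hμ hμ2
    have h3 := LinearMap.congr_fun (S.D_J (X x) y hμ) z
    rw [Module.End.mul_apply, LinearMap.sub_apply, Module.End.mul_apply, h2 μ hμ hμ2, map_zero,
      LinearMap.sum_apply] at h3
    have h4 : ∑ ν ∈ Mo σ (e + 1), (coeff μ (X x * pderiv y (monomial ν (1 : k))) • S.J ν) z
        = 0 := by
      refine Finset.sum_eq_zero fun ν hν => ?_
      rw [LinearMap.smul_apply]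
      by_cases h5 : coeff μ (X x * pderiv y (monomial ν (1 : k))) = 0
      · rw [h5, zero_smul]
      · have h6 := coeff_move (o := o) ⟨fun h' => absurd h' hx, fun h' => absurd h' hy⟩ h5
        rw [h2 ν hν (by omega), smul_zero]
    rw [h4, sub_zero] at h3
    exact h3.symm

theorem Doo_GZ (C : Cmp S A o K) {s i m : ℕ} {z : F} (h : z ∈ GZ S o K s i m) :
    S.D (X o) o z = (i : k) • z := by
  obtain ⟨h1, h2⟩ := mem_GZ.mp h
  obtain ⟨g1, g2, g3, g4⟩ := mem_Cl.mp h1
  obtain ⟨f1, f2⟩ := C.G_iff.mp g1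
  have hT : S.T o z = 0 := by
    have := C.T_rho z
    rwa [g2] at this
  have hn := A.num f1
  unfold Fk.D
  rw [LinearMap.add_apply, Module.End.mul_apply, hT, map_zero, zero_add, LinearMap.sum_apply]
  have h3 : ∀ μ ∈ Mo σ (e + 1), (S.Ee (X o * pderiv o (monomial μ 1)) * S.J μ) z
      = S.E μ (S.J μ z) - (if μ o = 0 then S.E μ (S.J μ z) else 0) := by
    intro μ hμ
    have h4 : (X o * pderiv o (monomial μ (1 : k))) = (μ o : k) • monomial μ 1 := by
      rw [pderiv_monomial, one_mul]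
      by_cases h5 : μ o = 0
      · rw [h5, Nat.cast_zero, map_zero, mul_zero, zero_smul]
      · have h6 := mono_sub (k := k) o (μ := μ) (j := 1) (by omega)
        rw [pow_one] at h6
        have h7 : (monomial (μ - Finsupp.single o 1) (μ o : k))
            = (μ o : k) • monomial (μ - Finsupp.single o 1) (1 : k) := by
          rw [smul_monomial, smul_eq_mul, mul_one]
        rw [h7, mul_smul_comm, ← h6]
    rw [h4, map_smul, S.Ee_monomial hμ, Module.End.mul_apply, LinearMap.smul_apply]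
    by_cases h5 : μ o = 0
    · rw [if_pos h5, h5, Nat.cast_zero, zero_smul, sub_self]
    · rw [if_neg h5, sub_zero]
      by_cases h6 : μ o = 1
      · rw [h6, Nat.cast_one, one_smul]
      · rw [h2 μ hμ (by omega), map_zero, smul_zero]
  rw [Finset.sum_congr rfl h3, Finset.sum_sub_distrib, ← Finset.sum_filter, hn]
  have h7 : N0 S o z = ∑ μ ∈ (Mo σ (e + 1)).filter (fun μ => μ o = 0), S.E μ (S.J μ z) := by
    unfold N0
    rw [LinearMap.sum_apply]
    rfl
  rw [← h7, f2, Nat.cast_add, add_smul, add_sub_cancel_left]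

end Pool.Agent.H34.OP2
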